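import Mathlib
import Pool.Agent.H.MP_653b50_an.A

open Filter Topology Set Complex

namespace Pool.Agent.Results.MP_653b50_an.No

open Pool.Agent.H.MP_653b50_an

def U (n : ℕ) : Set (Fin n → ℂ) := {z | ∀ j, 0 < (z j).im}

def R (n : ℕ) (c₁ c₂ : ℝ) : Set (Fin n → ℂ) :=
  {z | z ∈ U n ∧ ∀ j k : Fin n, j < k →
    c₁ ≤ (z j).im / (z k).im ∧ (z j).im / (z k).im ≤ c₂}

def Cone {n : ℕ} (x : Fin n → ℝ) : Set (Fin n → ℂ) :=
  {z | z ∈ U n ∧ ∀ j, |(z j).re - x j| < (z j).im}

theorem result (n : ℕ) (hn : 2 ≤ n) (c₁ c₂ : ℝ) (hc₁ : 0 < c₁) (hc : c₁ ≤ c₂)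
    (hR : (R n c₁ c₂).Nonempty) :
    ∃ u : (Fin n → ℂ) → ℝ,
      ContinuousOn u (U n) ∧
      (∀ z ∈ U n, ∀ j : Fin n,
        InnerProductSpace.HarmonicOnNhd (fun w : ℂ => u (Function.update z j w))
          {w : ℂ | 0 < w.im}) ∧
      (∃ M : ℝ, ∀ z ∈ R n c₁ c₂, |u z| ≤ M) ∧
      ∀ x : Fin n → ℝ, ¬ ∃ l : ℝ,
        Tendsto u (𝓝[Cone x ∩ R n c₁ c₂] (fun j => (x j : ℂ))) (𝓝 l) := by
  obtain ⟨i0, i1, h01⟩ : ∃ i0 i1 : Fin n, i0 < i1 :=
    ⟨⟨0, by omega⟩, ⟨1, by omega⟩, by simp [Fin.lt_def]⟩
  have hne : i0 ≠ i1 := h01.ne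
  refine ⟨fun z => (z i0).im * (h (z i1)).re, ?_, ?_, ⟨c₂ * 2, ?_⟩, ?_⟩
  · intro z hz
    have h1 : ContinuousAt (fun z : Fin n → ℂ => h (z i1)) z :=
      ContinuousAt.comp (f := fun z : Fin n → ℂ => z i1) (an_h _ (hz i1)).continuousAt
        (continuous_apply i1).continuousAt
    have h2 : ContinuousAt (fun z : Fin n → ℂ => (h (z i1)).re) z :=
      Complex.continuous_re.continuousAt.comp h1
    have h3 : ContinuousAt (fun z : Fin n → ℂ => (z i0).im) z :=
      (Complex.continuous_im.comp (continuous_apply i0)).continuousAt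
    exact (h3.mul h2).continuousWithinAt
  · intro z hz j w hw
    by_cases a0 : j = i0
    · subst a0
      have := ((analyticAt_id (𝕜 := ℂ) (z := w)).harmonicAt_im).const_smul (c := (h (z i1)).re)
      convert this using 1
      funext v
      simp [Function.update_of_ne hne.symm, mul_comm]
    · by_cases a1 : j = i1
      · subst a1
        have := ((an_h w hw).harmonicAt_re).const_smul (c := (z i0).im)
        convert this using 1
        funext v
        simp [Function.update_of_ne hne]
      · have e : (fun w : ℂ => (Function.update z j w i0).im * (h (Function.update z j w i1)).re)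
            = fun _ => (z i0).im * (h (z i1)).re := by
          funext v
          rw [Function.update_of_ne (Ne.symm a0), Function.update_of_ne (Ne.symm a1)]
        show InnerProductSpace.HarmonicAt
          (fun w : ℂ => (Function.update z j w i0).im * (h (Function.update z j w i1)).re) w
        rw [e]
        exact InnerProductSpace.harmonicAt_const _
  · intro z hz
    have hy := hz.1 i1
    have hr := hz.2 i0 i1 h01
    have hb := bound (z i1) hy
    have e : (z i0).im * (h (z i1)).re = (z i0).im / (z i1).im * ((z i1).im * (h (z i1)).re) := by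
      field_simp
    show |(z i0).im * (h (z i1)).re| ≤ c₂ * 2
    rw [e, abs_mul, abs_of_pos (by linarith [hr.1])]
    exact mul_le_mul hr.2 hb (abs_nonneg _) (by linarith)
  · rintro x ⟨l, hl⟩
    obtain ⟨v, hv⟩ := hR
    have hv1 := hv.1 i1
    set ρ : ℝ := (v i0).im / (v i1).im with hρ
    have hρ0 : 0 < ρ := div_pos (hv.1 i0) hv1
    let Z : ℝ → ℕ → Fin n → ℂ := fun σ k j =>
      (x j : ℂ) + ((1 / lam k : ℝ) : ℂ) *
        (((if j = i1 then σ else 0 : ℝ) : ℂ) + (((v j).im / (v i1).im : ℝ) : ℂ) * I)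
    have Zim : ∀ σ k j, (Z σ k j).im = 1 / lam k * ((v j).im / (v i1).im) := by
      intro σ k j
      simp only [Z, add_im, ofReal_im, mul_im, ofReal_re, add_re, mul_re, I_re, I_im]
      ring
    have Zre : ∀ σ k j, (Z σ k j).re = x j + 1 / lam k * (if j = i1 then σ else 0) := by
      intro σ k j
      simp only [Z, add_im, ofReal_im, mul_im, ofReal_re, add_re, mul_re, I_re, I_im]
      ring
    have ZU : ∀ σ k, Z σ k ∈ U n := by
      intro σ k j
      rw [Zim]
      have := lam_pos k
      have := hv.1 j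
      positivity
    have Zmem : ∀ σ, |σ| < 1 → ∀ k, Z σ k ∈ Cone x ∩ R n c₁ c₂ := by
      intro σ hσ k
      have hl := lam_pos k
      refine ⟨⟨ZU σ k, fun j => ?_⟩, ZU σ k, fun j m hjm => ?_⟩
      · by_cases a : j = i1
        · subst a
          rw [Zim, Zre, if_pos rfl, div_self hv1.ne', add_sub_cancel_left, abs_mul,
            abs_of_pos (by positivity)]
          gcongr
        · have := ZU σ k j
          rw [Zre, if_neg a]
          simpa using this
      · have e : (Z σ k j).im / (Z σ k m).im = (v j).im / (v m).im := by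
          rw [Zim, Zim]
          have := hv.1 m
          field_simp
        rw [e]
        exact hv.2 j m hjm
    have hlam : Tendsto (fun k => 1 / lam k) atTop (𝓝 0) := by
      have := tendsto_pow_atTop_nhds_zero_of_lt_one (r := (1 / 1000000 : ℝ)) (by norm_num)
        (by norm_num)
      refine this.congr fun k => ?_
      unfold lam; rw [div_pow, one_pow]
    have Zt : ∀ σ, |σ| < 1 →
        Tendsto (Z σ) atTop (𝓝[Cone x ∩ R n c₁ c₂] (fun j => (x j : ℂ))) := by
      intro σ hσ
      refine tendsto_nhdsWithin_iff.2 ⟨tendsto_pi_nhds.2 fun j => ?_,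
        Eventually.of_forall (Zmem σ hσ)⟩
      have h1 : Tendsto (fun k => ((1 / lam k : ℝ) : ℂ)) atTop (𝓝 ((0 : ℝ) : ℂ)) :=
        (Complex.continuous_ofReal.tendsto 0).comp hlam
      have h2 := (h1.mul_const
        (((if j = i1 then σ else 0 : ℝ) : ℂ) + (((v j).im / (v i1).im : ℝ) : ℂ) * I)).const_add
          (x j : ℂ)
      simpa [Z] using h2
    have ev : ∀ σ, |σ| < 1 → ∀ᶠ k in atTop,
        |Real.exp (-1) * Real.cos (lam k * x i1 + σ) - l / ρ| ≤ 1 / 200 := by
      intro σ hσ
      have h1 := (hl.comp (Zt σ hσ)).div_const ρ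
      filter_upwards [(Metric.tendsto_nhds.1 h1) (1 / 1000) (by norm_num)] with k hk
      have hl := lam_pos k
      have y1 : (Z σ k i1).im = 1 / lam k := by rw [Zim, div_self hv1.ne', mul_one]
      have hm := main k (Z σ k i1) y1
      have e1 : lam k * (Z σ k i1).re = lam k * x i1 + σ := by
        rw [Zre, if_pos rfl]; field_simp
      have e2 : (Z σ k i0).im * (h (Z σ k i1)).re / ρ = (Z σ k i1).im * (h (Z σ k i1)).re := by
        rw [y1, Zim, ← hρ]; field_simp
      rw [e1] at hm
      simp only [Function.comp, Real.dist_eq] at hk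
      rw [e2] at hk
      rw [abs_le] at hm ⊢
      rw [abs_lt] at hk
      constructor <;> linarith [hm.1, hm.2, hk.1, hk.2]
    obtain ⟨k, k0, k1, k2⟩ := ((ev 0 (by norm_num)).and ((ev (1 / 2) (by norm_num [abs_lt])).and
      (ev (-(1 / 2)) (by norm_num [abs_lt])))).exists
    exact trig (lam k * x i1) (l / ρ) (by simpa using k0) k1 (by rw [sub_eq_add_neg (lam k * x i1)]; exact k2)

end Pool.Agent.Results.MP_653b50_an.No
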